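import Mathlib
import Pool.Agent.W662.KKS.Stmts

set_option autoImplicit false

open scoped InnerProductSpace
open Pool.Agent.W662.KKS

namespace Pool.Agent.W357.KKS.STD

variable {H : Type} [NormedAddCommGroup H] [InnerProductSpace ℂ H] [CompleteSpace H]

/-- `x ↦ x v` on `M`. -/
noncomputable def vv (M : VonNeumannAlgebra H) (v : H) : M.toStarSubalgebra →ₗ[ℂ] H where
  toFun x := (x : H →L[ℂ] H) v
  map_add' x y := by simp
  map_smul' c x := by simp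

theorem vv_apply (M : VonNeumannAlgebra H) (v : H) (x : M.toStarSubalgebra) :
    vv M v x = (x : H →L[ℂ] H) v := rfl

/-- right multiplication by `a`. -/
noncomputable def R (M : VonNeumannAlgebra H) (ξ : H) (a : H →L[ℂ] H) : H →L[ℂ] H :=
  (vv M (a ξ)).extendOfNorm (vv M ξ)

/-- hypotheses -/
structure Hyp (M : VonNeumannAlgebra H) (ξ : H) : Prop where
  cyc : ∀ v : H, ∀ ε : ℝ, 0 < ε → ∃ x ∈ M, ‖v - x ξ‖ ≤ ε
  tr : ∀ x ∈ M, ∀ y ∈ M, ⟪ξ, x (y ξ)⟫_ℂ = ⟪ξ, y (x ξ)⟫_ℂ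

theorem inner_star (x : H →L[ℂ] H) (v w : H) : ⟪star x v, w⟫_ℂ = ⟪v, x w⟫_ℂ := by
  rw [ContinuousLinearMap.star_eq_adjoint, ContinuousLinearMap.adjoint_inner_left]

theorem inner_star' (x : H →L[ℂ] H) (v w : H) : ⟪v, star x w⟫_ℂ = ⟪x v, w⟫_ℂ := by
  rw [ContinuousLinearMap.star_eq_adjoint, ContinuousLinearMap.adjoint_inner_right]

theorem dense_vv {M : VonNeumannAlgebra H} {ξ : H} (h : Hyp M ξ) : DenseRange (vv M ξ) := by
  intro v
  rw [Metric.mem_closure_iff]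
  intro ε hε
  obtain ⟨x, hx, hv⟩ := h.cyc v (ε / 2) (by positivity)
  refine ⟨x ξ, ⟨⟨x, hx⟩, rfl⟩, ?_⟩
  rw [dist_eq_norm]
  linarith

theorem norm_star {M : VonNeumannAlgebra H} {ξ : H} (h : Hyp M ξ) {x : H →L[ℂ] H} (hx : x ∈ M) :
    ‖star x ξ‖ = ‖x ξ‖ := by
  have hs : star x ∈ M := star_mem hx
  have h1 : ⟪star x ξ, star x ξ⟫_ℂ = ⟪x ξ, x ξ⟫_ℂ := by
    rw [inner_star, h.tr x hx (star x) hs, inner_star']
  rw [inner_self_eq_norm_sq_to_K, inner_self_eq_norm_sq_to_K] at h1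
  have h2 : ‖star x ξ‖ ^ 2 = ‖x ξ‖ ^ 2 := by exact_mod_cast h1
  nlinarith [norm_nonneg (star x ξ), norm_nonneg (x ξ),
    (sq_eq_sq₀ (norm_nonneg (star x ξ)) (norm_nonneg (x ξ))).mp h2]

theorem norm_xa {M : VonNeumannAlgebra H} {ξ : H} (h : Hyp M ξ) {x a : H →L[ℂ] H} (hx : x ∈ M)
    (ha : a ∈ M) : ‖x (a ξ)‖ ≤ ‖a‖ * ‖x ξ‖ := by
  have h1 := norm_star h (mul_mem hx ha)
  have h2 : star (x * a) ξ = star a (star x ξ) := by
    rw [star_mul]; rfl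
  have h3 : (x * a) ξ = x (a ξ) := rfl
  rw [← h3, ← h1, h2]
  calc ‖star a (star x ξ)‖ ≤ ‖star a‖ * ‖star x ξ‖ := (star a).le_opNorm _
    _ = ‖a‖ * ‖x ξ‖ := by rw [_root_.norm_star, norm_star h hx]

theorem R_apply {M : VonNeumannAlgebra H} {ξ : H} (h : Hyp M ξ) {x a : H →L[ℂ] H} (hx : x ∈ M)
    (ha : a ∈ M) : R M ξ a (x ξ) = x (a ξ) := by
  have := LinearMap.extendOfNorm_eq (f := vv M (a ξ)) (e := vv M ξ) (dense_vv h)
    ⟨‖a‖, fun y => norm_xa h y.2 ha⟩ ⟨x, hx⟩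
  exact this

theorem R_norm_le {M : VonNeumannAlgebra H} {ξ : H} (h : Hyp M ξ) {a : H →L[ℂ] H}
    (ha : a ∈ M) : ‖R M ξ a‖ ≤ ‖a‖ :=
  LinearMap.opNorm_extendOfNorm_le (dense_vv h) (norm_nonneg a) (fun y => norm_xa h y.2 ha)

theorem ext_cyc {M : VonNeumannAlgebra H} {ξ : H} (h : Hyp M ξ) {S T : H →L[ℂ] H}
    (hST : ∀ x ∈ M, S (x ξ) = T (x ξ)) : S = T := by
  have h1 : (S : H → H) = T := by
    refine (dense_vv h).equalizer S.continuous T.continuous ?_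
    funext x
    exact hST x.1 x.2
  ext v
  exact congrFun h1 v

theorem R_vec {M : VonNeumannAlgebra H} {ξ : H} (h : Hyp M ξ) {a : H →L[ℂ] H}
    (ha : a ∈ M) : R M ξ a ξ = a ξ := by
  have := R_apply h (one_mem M) ha
  simpa using this

theorem R_comm {M : VonNeumannAlgebra H} {ξ : H} (h : Hyp M ξ) {a x : H →L[ℂ] H}
    (ha : a ∈ M) (hx : x ∈ M) : R M ξ a * x = x * R M ξ a := by
  refine ext_cyc h fun y hy => ?_
  have h1 : (R M ξ a * x) (y ξ) = R M ξ a ((x * y) ξ) := rfl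
  have h2 : (x * R M ξ a) (y ξ) = x (R M ξ a (y ξ)) := rfl
  rw [h1, h2, R_apply h (mul_mem hx hy) ha, R_apply h hy ha]
  rfl

theorem R_mem {M : VonNeumannAlgebra H} {ξ : H} (h : Hyp M ξ) {a : H →L[ℂ] H}
    (ha : a ∈ M) : R M ξ a ∈ M.commutant := by
  rw [VonNeumannAlgebra.mem_commutant_iff]
  intro x hx
  exact (R_comm h ha hx).symm

theorem smul_mem' {M : VonNeumannAlgebra H} (c : ℂ) {a : H →L[ℂ] H} (ha : a ∈ M) : c • a ∈ M :=
  M.toStarSubalgebra.smul_mem ha c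

theorem R_star {M : VonNeumannAlgebra H} {ξ : H} (h : Hyp M ξ) {a : H →L[ℂ] H}
    (ha : a ∈ M) : R M ξ (star a) = star (R M ξ a) := by
  refine ext_cyc h fun x hx => ?_
  refine ext_inner_right ℂ fun w => ?_
  have h1 : (fun w => ⟪R M ξ (star a) (x ξ), w⟫_ℂ) = fun w => ⟪star (R M ξ a) (x ξ), w⟫_ℂ := by
    refine (dense_vv h).equalizer (by fun_prop) (by fun_prop) ?_
    funext y
    have hy : (y : H →L[ℂ] H) ∈ M := y.2
    show ⟪R M ξ (star a) (x ξ), (y : H →L[ℂ] H) ξ⟫_ℂ =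
      ⟪star (R M ξ a) (x ξ), (y : H →L[ℂ] H) ξ⟫_ℂ
    rw [R_apply h hx (star_mem ha), inner_star, R_apply h hy ha]
    have e1 : ⟪x (star a ξ), (y : H →L[ℂ] H) ξ⟫_ℂ = ⟪ξ, a ((star x * y) ξ)⟫_ℂ := by
      have : a ((star x * (y : H →L[ℂ] H)) ξ) = a (star x ((y : H →L[ℂ] H) ξ)) := rfl
      rw [this, ← inner_star a, inner_star' x]
    have e2 : ⟪x ξ, (y : H →L[ℂ] H) (a ξ)⟫_ℂ = ⟪ξ, (star x * y) (a ξ)⟫_ℂ := by
      have : (star x * (y : H →L[ℂ] H)) (a ξ) = (star x ((y : H →L[ℂ] H) (a ξ))) := rfl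
      rw [this, inner_star' x]
    rw [e1, e2, h.tr a ha _ (mul_mem (star_mem hx) hy)]
  exact congrFun h1 w

/-- `s ξ ↦ s* ξ` is compatible with `b ξ ↦ b* ξ`. -/
theorem star_close {M : VonNeumannAlgebra H} {ξ : H} (h : Hyp M ξ) {s b : H →L[ℂ] H}
    (hs : s ∈ M.commutant) (hb : b ∈ M) : ‖star s ξ - star b ξ‖ ≤ ‖s ξ - b ξ‖ := by
  have hc : ∀ x ∈ M, ∀ v, s (x v) = x (s v) := by
    intro x hx v
    have := (VonNeumannAlgebra.mem_commutant_iff.mp hs) x hx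
    exact (congrArg (fun T : H →L[ℂ] H => T v) this).symm
  have h1 : ∀ x ∈ M, ‖⟪star s ξ - star b ξ, x ξ⟫_ℂ‖ ≤ ‖s ξ - b ξ‖ * ‖x ξ‖ := by
    intro x hx
    have e : ⟪star s ξ - star b ξ, x ξ⟫_ℂ = ⟪star x ξ, s ξ - b ξ⟫_ℂ := by
      rw [inner_sub_left, inner_sub_right, inner_star, inner_star, hc x hx, h.tr b hb x hx,
        inner_star, inner_star]
    rw [e]
    calc ‖⟪star x ξ, s ξ - b ξ⟫_ℂ‖ ≤ ‖star x ξ‖ * ‖s ξ - b ξ‖ := norm_inner_le_norm _ _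
      _ = ‖s ξ - b ξ‖ * ‖x ξ‖ := by rw [norm_star h hx, mul_comm]
  have h2 : ∀ v : H, ‖⟪star s ξ - star b ξ, v⟫_ℂ‖ ≤ ‖s ξ - b ξ‖ * ‖v‖ := by
    intro v
    refine DenseRange.induction_on (dense_vv h) v ?_ fun x => h1 x.1 x.2
    exact isClosed_le (by fun_prop) (by fun_prop)
  have h3 := h2 (star s ξ - star b ξ)
  have h4 : ‖⟪star s ξ - star b ξ, star s ξ - star b ξ⟫_ℂ‖ = ‖star s ξ - star b ξ‖ ^ 2 := by
    rw [inner_self_eq_norm_sq_to_K]
    simp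
  rw [h4] at h3
  by_contra hlt
  push Not at hlt
  nlinarith [norm_nonneg (s ξ - b ξ), norm_nonneg (star s ξ - star b ξ)]

theorem hyp_comm {M : VonNeumannAlgebra H} {ξ : H} (h : Hyp M ξ) : Hyp M.commutant ξ := by
  refine ⟨?_, ?_⟩
  · intro v ε hε
    obtain ⟨x, hx, hv⟩ := h.cyc v ε hε
    exact ⟨R M ξ x, R_mem h hx, by rw [R_vec h hx]; exact hv⟩
  · intro r hr s hs
    have hc : ∀ x ∈ M, ∀ v, r (x v) = x (r v) := by
      intro x hx v
      have := (VonNeumannAlgebra.mem_commutant_iff.mp hr) x hx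
      exact (congrArg (fun T : H →L[ℂ] H => T v) this).symm
    have key : ∀ ε : ℝ, 0 < ε →
        ‖⟪ξ, r (s ξ)⟫_ℂ - ⟪ξ, s (r ξ)⟫_ℂ‖ ≤ (‖star r ξ‖ + ‖r ξ‖) * ε := by
      intro ε hε
      obtain ⟨b, hb, hsb⟩ := h.cyc (s ξ) ε hε
      have h1 := star_close h hs hb
      have e : ⟪ξ, r (s ξ)⟫_ℂ - ⟪ξ, s (r ξ)⟫_ℂ =
          ⟪star r ξ, s ξ - b ξ⟫_ℂ - ⟪star s ξ - star b ξ, r ξ⟫_ℂ := by
        rw [inner_sub_right, inner_sub_left, inner_star, inner_star, inner_star, inner_star,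
          hc b hb]
        ring
      rw [e]
      calc ‖⟪star r ξ, s ξ - b ξ⟫_ℂ - ⟪star s ξ - star b ξ, r ξ⟫_ℂ‖
          ≤ ‖⟪star r ξ, s ξ - b ξ⟫_ℂ‖ + ‖⟪star s ξ - star b ξ, r ξ⟫_ℂ‖ := norm_sub_le _ _
        _ ≤ ‖star r ξ‖ * ‖s ξ - b ξ‖ + ‖star s ξ - star b ξ‖ * ‖r ξ‖ :=
            add_le_add (norm_inner_le_norm _ _) (norm_inner_le_norm _ _)
        _ ≤ ‖star r ξ‖ * ε + ε * ‖r ξ‖ := by
            refine add_le_add ?_ ?_
            · exact mul_le_mul_of_nonneg_left hsb (norm_nonneg _)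
            · exact mul_le_mul_of_nonneg_right (h1.trans hsb) (norm_nonneg _)
        _ = (‖star r ξ‖ + ‖r ξ‖) * ε := by ring
    have h0 : ‖⟪ξ, r (s ξ)⟫_ℂ - ⟪ξ, s (r ξ)⟫_ℂ‖ ≤ 0 := by
      by_contra hlt
      push Not at hlt
      have hK : 0 ≤ ‖star r ξ‖ + ‖r ξ‖ := by positivity
      have := key (‖⟪ξ, r (s ξ)⟫_ℂ - ⟪ξ, s (r ξ)⟫_ℂ‖ / (2 * (‖star r ξ‖ + ‖r ξ‖ + 1)))
        (by positivity)
      rw [mul_div_assoc', le_div_iff₀ (by positivity)] at this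
      nlinarith
    exact sub_eq_zero.mp (norm_le_zero_iff.mp h0)

theorem R_surj {M : VonNeumannAlgebra H} {ξ : H} (h : Hyp M ξ) {r : H →L[ℂ] H}
    (hr : r ∈ M.commutant) : ∃ a ∈ M, r = R M ξ a := by
  have h' := hyp_comm h
  have hM : R M.commutant ξ r ∈ M := by
    have := R_mem h' hr
    rwa [VonNeumannAlgebra.commutant_commutant] at this
  refine ⟨R M.commutant ξ r, hM, ?_⟩
  refine ext_cyc h fun x hx => ?_
  rw [R_apply h hx hM, R_vec h' hr]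
  have := (VonNeumannAlgebra.mem_commutant_iff.mp hr) x hx
  exact (congrArg (fun T : H →L[ℂ] H => T ξ) this).symm

theorem std : S_STD := by
  intro H _ _ _ M ξ hξ hcyc htr
  have h : Hyp M ξ := ⟨hcyc, htr⟩
  have nle : ∀ a ∈ M, ‖R M ξ a‖ = ‖a‖ := by
    intro a ha
    refine le_antisymm (R_norm_le h ha) ?_
    have h1 : ‖a‖ ≤ ‖R M ξ (star a)‖ := by
      refine a.opNorm_le_bound (norm_nonneg _) fun v => ?_
      refine DenseRange.induction_on (dense_vv h) v ?_ fun x => ?_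
      · exact isClosed_le (by fun_prop) (by fun_prop)
      · have hx : (x : H →L[ℂ] H) ∈ M := x.2
        have e1 : a (vv M ξ x) = (a * (x : H →L[ℂ] H)) ξ := rfl
        have e2 : star (a * (x : H →L[ℂ] H)) ξ = star (x : H →L[ℂ] H) (star a ξ) := by
          rw [star_mul]; rfl
        rw [e1, ← norm_star h (mul_mem ha hx), e2, ← R_apply h (star_mem hx) (star_mem ha)]
        calc ‖R M ξ (star a) (star (x : H →L[ℂ] H) ξ)‖
            ≤ ‖R M ξ (star a)‖ * ‖star (x : H →L[ℂ] H) ξ‖ := ContinuousLinearMap.le_opNorm _ _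
          _ = ‖R M ξ (star a)‖ * ‖vv M ξ x‖ := by rw [norm_star h hx]; rfl
    rwa [R_star h ha, _root_.norm_star] at h1
  refine ⟨R M ξ, hξ, hcyc, htr, ?_, ?_, ?_, ?_, ?_, ?_, ?_, ?_, nle, ?_⟩
  · intro x hx hx0
    have : R M ξ x = 0 := by
      refine ext_cyc h fun y hy => ?_
      rw [R_apply h hy hx, hx0]
      simp
    have h1 := nle x hx
    rw [this, norm_zero] at h1
    exact norm_eq_zero.mp h1.symm
  · intro a ha; exact R_vec h ha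
  · refine ext_cyc h fun y hy => ?_
    rw [R_apply h hy (one_mem M)]
    rfl
  · intro a ha x hx; exact R_comm h ha hx
  · intro a ha b hb
    refine ext_cyc h fun y hy => ?_
    rw [R_apply h hy (add_mem ha hb), ContinuousLinearMap.add_apply,
      ContinuousLinearMap.add_apply, R_apply h hy ha, R_apply h hy hb, map_add]
  · intro c a ha
    refine ext_cyc h fun y hy => ?_
    rw [R_apply h hy (smul_mem' c ha), ContinuousLinearMap.smul_apply,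
      ContinuousLinearMap.smul_apply, R_apply h hy ha, map_smul]
  · intro a ha b hb
    refine ext_cyc h fun y hy => ?_
    have e : (R M ξ b * R M ξ a) (y ξ) = R M ξ b (R M ξ a (y ξ)) := rfl
    have e2 : y (a ξ) = (y * a) ξ := rfl
    rw [R_apply h hy (mul_mem ha hb), e, R_apply h hy ha, e2, R_apply h (mul_mem hy ha) hb]
    rfl
  · intro a ha; exact R_star h ha
  · intro r hr
    refine R_surj h ?_
    rw [VonNeumannAlgebra.mem_commutant_iff]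
    intro x hx
    exact (hr x hx).symm

end Pool.Agent.W357.KKS.STD
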