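import Mathlib
import Pool.Agent.W662.KKS.Stmts

set_option autoImplicit false
set_option linter.unusedSectionVars false

open scoped InnerProductSpace
open Pool.Agent.W662.KKS

namespace Pool.Agent.W357.KKS.UNI

section basics
variable {H : Type} [NormedAddCommGroup H] [InnerProductSpace ℂ H] [CompleteSpace H]

theorem me_ent {M : VonNeumannAlgebra H} (i k : Fin 3) {h : H →L[ℂ] H} (hM : h ∈ M)
    (h1 : ‖h‖ ≤ 1) : Ent M 1 (me i k h) := by
  intro p q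
  unfold me
  split_ifs
  · exact ⟨hM, h1⟩
  · exact ⟨zero_mem M, by simp⟩

theorem mm_me (i j k : Fin 3) (x y : H →L[ℂ] H) : mm (me i j x) (me j k y) = me i k (x * y) := by
  funext p q
  unfold mm me
  rw [Finset.sum_eq_single j]
  · by_cases hp : p = i <;> by_cases hq : q = k <;> simp [hp, hq]
  · intro b _ hb
    simp [hb]
  · intro hj
    exact absurd (Finset.mem_univ j) hj

theorem Lm_me (i j k : Fin 3) (x : H →L[ℂ] H) (v : K3 H) :
    (Lm (me i j x) v) (i, k) = x (v (j, k)) := by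
  rw [Lm_apply, Finset.sum_eq_single j]
  · simp [me]
  · intro b _ hb
    simp [me, hb]
  · intro hj
    exact absurd (Finset.mem_univ j) hj

theorem Rm_me {ρ : (H →L[ℂ] H) → (H →L[ℂ] H)} (h0 : ρ 0 = 0) (i j k : Fin 3) (x : H →L[ℂ] H)
    (v : K3 H) : (Rm ρ (me j k x) v) (i, k) = ρ x (v (i, j)) := by
  rw [Rm_apply, Finset.sum_eq_single j]
  · simp [me]
  · intro b _ hb
    simp [me, hb, h0]
  · intro hj
    exact absurd (Finset.mem_univ j) hj

theorem cm_me {c : (H →L[ℂ] H) → (H →L[ℂ] H) → H} (h0 : c 0 0 = 0) (i j k : Fin 3)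
    (x y : H →L[ℂ] H) : (cm c (me i j x) (me j k y)) (i, k) = c x y := by
  rw [cm_apply, Finset.sum_eq_single j]
  · simp [me]
  · intro b _ hb
    simp [me, hb, h0]
  · intro hj
    exact absurd (Finset.mem_univ j) hj

theorem vm_me (ξ : H) (i k : Fin 3) (h : H →L[ℂ] H) :
    vm ξ (me i k h) = PiLp.single 2 (β := fun _ : Fin 3 × Fin 3 => H) (i, k) (h ξ) := by
  ext p
  obtain ⟨a, b⟩ := p
  rw [vm_apply]
  by_cases hp : a = i ∧ b = k
  · obtain ⟨rfl, rfl⟩ := hp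
    rw [PiLp.single_eq_same]
    simp [me]
  · rw [PiLp.single_eq_of_ne]
    · simp [me, hp]
    · intro h'
      exact hp (by simpa [Prod.ext_iff] using h')

/-- the operator `v ↦ (1/2) (A (v at (0,2)))_(0,2)` -/
noncomputable def S1 (A : K3 H →L[ℂ] K3 H) : H →L[ℂ] H :=
  LinearMap.mkContinuous
    { toFun := fun v => (2 : ℂ)⁻¹ •
        (A (PiLp.single 2 (β := fun _ : Fin 3 × Fin 3 => H) (0, 2) v)) (0, 2)
      map_add' := fun v w => by
        rw [PiLp.single_add, map_add, PiLp.add_apply, smul_add]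
      map_smul' := fun z v => by
        have : PiLp.single 2 (β := fun _ : Fin 3 × Fin 3 => H) (0, 2) (z • v) =
            z • PiLp.single 2 (β := fun _ : Fin 3 × Fin 3 => H) (0, 2) v := by
          rw [← PiLp.toLp_single, ← PiLp.toLp_single, Pi.single_smul, WithLp.toLp_smul]
        rw [this, map_smul, PiLp.smul_apply, smul_comm]
        rfl } (2⁻¹ * ‖A‖) (by
    intro v
    have h1 : ‖(A (PiLp.single 2 (β := fun _ : Fin 3 × Fin 3 => H) (0, 2) v)) (0, 2)‖ ≤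
        ‖A‖ * ‖v‖ := by
      refine (PiLp.norm_apply_le _ _).trans ((A.le_opNorm _).trans ?_)
      refine mul_le_mul_of_nonneg_left ?_ (norm_nonneg _)
      exact (PiLp.norm_single 2 (fun _ : Fin 3 × Fin 3 => H) (0, 2) v).le
    show ‖(2 : ℂ)⁻¹ • (A (PiLp.single 2 (β := fun _ : Fin 3 × Fin 3 => H) (0, 2) v)) (0, 2)‖ ≤ _
    rw [norm_smul, mul_assoc]
    have : ‖(2 : ℂ)⁻¹‖ = 2⁻¹ := by simp
    rw [this]
    exact mul_le_mul_of_nonneg_left h1 (by norm_num))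

theorem S1_apply (A : K3 H →L[ℂ] K3 H) (v : H) : S1 A v = (2 : ℂ)⁻¹ •
    (A (PiLp.single 2 (β := fun _ : Fin 3 × Fin 3 => H) (0, 2) v)) (0, 2) := rfl

theorem S1_norm (A : K3 H →L[ℂ] K3 H) : ‖S1 A‖ ≤ 2⁻¹ * ‖A‖ :=
  LinearMap.mkContinuous_norm_le _ (by positivity) _

theorem norm_unitary {a : H →L[ℂ] H} (ha : a ∈ unitary (H →L[ℂ] H)) : ‖a‖ ≤ 1 := by
  have h1 : ‖star a * a‖ = ‖a‖ * ‖a‖ := CStarRing.norm_star_mul_self
  rw [(Unitary.mem_iff.mp ha).1] at h1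
  have h2 : ‖(1 : H →L[ℂ] H)‖ ≤ 1 := ContinuousLinearMap.norm_id_le
  nlinarith [norm_nonneg a]

theorem le_of_le_one (f : H →L[ℂ] H) {r : ℝ} (hf : ‖f‖ ≤ 1) {v : H} (hv : ‖v‖ ≤ r) : ‖f v‖ ≤ r :=
  calc ‖f v‖ ≤ ‖f‖ * ‖v‖ := f.le_opNorm v
    _ ≤ 1 * ‖v‖ := mul_le_mul_of_nonneg_right hf (norm_nonneg _)
    _ ≤ r := by rw [one_mul]; exact hv

end basics

theorem uni (h1 : S_STAR) (h2 : S_EXP) (h3 : S_OPR) : S_UNI := by
  obtain ⟨K1, hK1, h1⟩ := h1
  obtain ⟨K2, hK2, h2⟩ := h2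
  obtain ⟨L, hL, h3⟩ := h3
  refine ⟨2 * K1 + 8 * K2 + 6 * L, by linarith, ?_⟩
  intro H _ _ _ M ξ ρ c T T' γ δ ε hstd hγ hδ hε hεδ hcd
  obtain ⟨I, s, t, E, hE, hI, hs, ht, hst⟩ := h1 H M ξ ρ c T T' γ δ ε hstd hγ hδ hε hcd
  have hexp := h2 H M ξ ρ c T T' γ δ ε hstd hγ hδ hε hcd I s t E hE hI hs ht
  obtain ⟨A, B, p₁, p₂, q₁, q₂, hA, hB, hp1, hp2, hq1, hq2, hpp, hqq, hpb, hqb⟩ :=
    h3 H M ξ ρ c T T' γ δ ε hstd hγ hδ hε hcd I s t E hE hI hs ht
  have hρ0 : ρ 0 = 0 := by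
    have := hstd.smul 0 0 (zero_mem M)
    simpa using this
  have hc0 : c 0 0 = 0 := by
    have := hcd.smul1 0 0 (zero_mem M) 0 (zero_mem M)
    simpa using this
  have hρ1 := hstd.one
  have hn1 : ‖(1 : H →L[ℂ] H)‖ ≤ 1 := ContinuousLinearMap.norm_id_le
  have hM1 : (1 : H →L[ℂ] H) ∈ M := one_mem M
  have hM0 : (0 : H →L[ℂ] H) ∈ M := zero_mem M
  set P : Mat H → K3 H := pp ρ c s t E with hP
  set Q : Mat H → K3 H := qq ρ c s t E with hQ
  set W : Mat H → K3 H := hh ρ c s E with hW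
  set F : Mat H → Mat H → K3 H := FF ρ c s t E with hF
  obtain ⟨al, hal⟩ : ∃ f : (H →L[ℂ] H) → H, f = fun b => (P (me 1 2 b)) (1, 2) := ⟨_, rfl⟩
  obtain ⟨si, hsi⟩ : ∃ f : (H →L[ℂ] H) → H, f = fun a => (Q (me 0 1 a)) (0, 1) := ⟨_, rfl⟩
  obtain ⟨be, hbe⟩ : ∃ f : (H →L[ℂ] H) → H, f = fun h => (2 : ℂ)⁻¹ •
    ((P (me 0 2 h)) (0, 2) + ρ h ((Q (me 0 0 1)) (0, 0)) + h ((P (me 2 2 1)) (2, 2))
      + (Q (me 0 2 h)) (0, 2)) := ⟨_, rfl⟩
  -- the basic estimate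
  have E1 : ∀ a ∈ M, ∀ b ∈ M, a ∈ unitary (H →L[ℂ] H) → b ∈ unitary (H →L[ℂ] H) →
      ‖c a b - (be (a * b) - a (al b) - ρ b (si a))‖ ≤ (K1 / 2 + 2 * K2) * ε := by
    intro a ha b hb hau hbu
    have hab : a * b ∈ M := mul_mem ha hb
    have na := norm_unitary hau
    have nb := norm_unitary hbu
    have nab : ‖a * b‖ ≤ 1 := norm_unitary (mul_mem hau hbu)
    have x1 := (PiLp.norm_apply_le _ ((0 : Fin 3), (2 : Fin 3))).trans
      (hexp (me 0 0 1) (me 0 2 (a * b)) (me_ent 0 0 hM1 hn1) (me_ent 0 2 hab nab))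
    have x2 := (PiLp.norm_apply_le _ ((0 : Fin 3), (2 : Fin 3))).trans
      (hexp (me 0 1 a) (me 1 2 b) (me_ent 0 1 ha na) (me_ent 1 2 hb nb))
    have x3 := (PiLp.norm_apply_le _ ((0 : Fin 3), (2 : Fin 3))).trans
      (hexp (me 0 2 (a * b)) (me 2 2 1) (me_ent 0 2 hab nab) (me_ent 2 2 hM1 hn1))
    have x0 := hst a ha b hb hau hbu
    rw [PiLp.sub_apply, PiLp.add_apply, PiLp.add_apply, PiLp.add_apply, mm_me, cm_me hc0,
      Lm_me, Rm_me hρ0] at x1 x2 x3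
    rw [PiLp.sub_apply, PiLp.add_apply, PiLp.neg_apply, PiLp.smul_apply] at x0
    rw [hcd.one1 _ hab, one_mul] at x1
    rw [hcd.one2 _ hab, mul_one, hρ1] at x3
    simp only [one_apply_eq_self] at x1 x3
    have e : (2 : ℂ) • (c a b - (be (a * b) - a (al b) - ρ b (si a))) =
        (-(F (me 0 0 1) (me 0 2 (a * b))) (0, 2) + (2 : ℂ) • (F (me 0 1 a) (me 1 2 b)) (0, 2)
          - (F (me 0 2 (a * b)) (me 2 2 1)) (0, 2))
        + ((F (me 0 0 1) (me 0 2 (a * b))) (0, 2) -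
            (0 + (P (me 0 2 (a * b))) (0, 2) + ρ (a * b) ((Q (me 0 0 1)) (0, 0)) +
              (W (me 0 2 (a * b))) (0, 2)))
        - (2 : ℂ) • ((F (me 0 1 a) (me 1 2 b)) (0, 2) -
            (c a b + a ((P (me 1 2 b)) (1, 2)) + ρ b ((Q (me 0 1 a)) (0, 1)) +
              (W (me 0 2 (a * b))) (0, 2)))
        + ((F (me 0 2 (a * b)) (me 2 2 1)) (0, 2) -
            (0 + (a * b) ((P (me 2 2 1)) (2, 2)) + (Q (me 0 2 (a * b))) (0, 2) +
              (W (me 0 2 (a * b))) (0, 2))) := by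
      rw [hbe, hal, hsi]
      module
    have hn : ‖(2 : ℂ) • (c a b - (be (a * b) - a (al b) - ρ b (si a)))‖ ≤
        K1 * ε + K2 * ε + 2 * (K2 * ε) + K2 * ε := by
      rw [e]
      refine (norm_add_le _ _).trans (add_le_add ((norm_sub_le _ _).trans (add_le_add
        ((norm_add_le _ _).trans (add_le_add x0 x1)) ?_)) x3)
      rw [norm_smul]
      have : ‖(2 : ℂ)‖ = 2 := by simp
      rw [this]
      exact mul_le_mul_of_nonneg_left x2 (by norm_num)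
    rw [norm_smul] at hn
    have : ‖(2 : ℂ)‖ = 2 := by simp
    rw [this] at hn
    linarith
  have hu1 : (1 : H →L[ℂ] H) ∈ unitary (H →L[ℂ] H) := one_mem _
  have E2 : ∀ a ∈ M, ∀ b ∈ M, a ∈ unitary (H →L[ℂ] H) → b ∈ unitary (H →L[ℂ] H) →
      ‖c a b - (be (a * b) - a (be b) - ρ b (be a) + a (ρ b (be 1)))‖ ≤
        4 * ((K1 / 2 + 2 * K2) * ε) := by
    intro a ha b hb hau hbu
    have na := norm_unitary hau
    have nb : ‖ρ b‖ ≤ 1 := by rw [hstd.norm b hb]; exact norm_unitary hbu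
    have y0 := E1 a ha b hb hau hbu
    have y1 := E1 a ha 1 hM1 hau hu1
    have y2 := E1 1 hM1 b hb hu1 hbu
    have y3 := E1 1 hM1 1 hM1 hu1 hu1
    rw [hcd.one2 a ha, mul_one, hρ1] at y1
    rw [hcd.one1 b hb, one_mul] at y2
    rw [hcd.one1 1 hM1, one_mul, hρ1] at y3
    simp only [one_apply_eq_self] at y1 y2 y3
    have hcom : ρ b (a (al 1)) = a (ρ b (al 1)) :=
      congrArg (fun T : H →L[ℂ] H => T (al 1)) (hstd.comm b hb a ha)
    have e : c a b - (be (a * b) - a (be b) - ρ b (be a) + a (ρ b (be 1))) =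
        (c a b - (be (a * b) - a (al b) - ρ b (si a))) -
          a (0 - (be b - al b - ρ b (si 1))) -
          ρ b (0 - (be a - a (al 1) - si a)) +
          a (ρ b (0 - (be 1 - al 1 - si 1))) := by
      simp only [map_sub, map_zero, hcom]
      module
    rw [e]
    have z1 := le_of_le_one a na y2
    have z2 := le_of_le_one (ρ b) nb y1
    have z3 := le_of_le_one a na (le_of_le_one (ρ b) nb y3)
    have := (norm_add_le ((c a b - (be (a * b) - a (al b) - ρ b (si a))) -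
          a (0 - (be b - al b - ρ b (si 1))) -
          ρ b (0 - (be a - a (al 1) - si a))) (a (ρ b (0 - (be 1 - al 1 - si 1))))).trans
      (add_le_add ((norm_sub_le _ _).trans (add_le_add ((norm_sub_le _ _).trans
        (add_le_add y0 z1)) z2)) z3)
    linarith
  -- the operator
  set e1 : H := (2 : ℂ)⁻¹ • (p₂ (0, 0) + q₂ (0, 0) + (Q (me 0 0 1)) (0, 0)) with he1
  set e2 : H := (2 : ℂ)⁻¹ • (p₁ (2, 2) + q₁ (2, 2) + (P (me 2 2 1)) (2, 2)) with he2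
  obtain ⟨b1, hb1⟩ : ∃ f : (H →L[ℂ] H) → H,
    f = fun h => S1 (A + B) (h ξ) + h e2 + ρ h e1 := ⟨_, rfl⟩
  have hhalf : ‖(2 : ℂ)⁻¹‖ = 2⁻¹ := by simp
  have E3 : ∀ h ∈ M, ‖h‖ ≤ 1 → ‖be h - b1 h‖ ≤ L * ε := by
    intro h hM hn
    have x1 := (PiLp.norm_apply_le _ ((0 : Fin 3), (2 : Fin 3))).trans
      (hpp (me 0 2 h) (me_ent 0 2 hM hn))
    have x2 := (PiLp.norm_apply_le _ ((0 : Fin 3), (2 : Fin 3))).trans
      (hqq (me 0 2 h) (me_ent 0 2 hM hn))
    rw [PiLp.sub_apply, PiLp.add_apply, PiLp.add_apply, Lm_me, Rm_me hρ0, vm_me] at x1 x2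
    have e : be h - b1 h = (2 : ℂ)⁻¹ • (((P (me 0 2 h)) (0, 2) -
        ((A (PiLp.single 2 (β := fun _ : Fin 3 × Fin 3 => H) (0, 2) (h ξ))) (0, 2) +
          h (p₁ (2, 2)) + ρ h (p₂ (0, 0)))) +
        ((Q (me 0 2 h)) (0, 2) -
        ((B (PiLp.single 2 (β := fun _ : Fin 3 × Fin 3 => H) (0, 2) (h ξ))) (0, 2) +
          h (q₁ (2, 2)) + ρ h (q₂ (0, 0))))) := by
      rw [hbe, hb1, he1, he2]
      simp only [S1_apply, add_apply, PiLp.add_apply, map_smul, map_add]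
      module
    rw [e, norm_smul, hhalf]
    have := (norm_add_le ((P (me 0 2 h)) (0, 2) -
        ((A (PiLp.single 2 (β := fun _ : Fin 3 × Fin 3 => H) (0, 2) (h ξ))) (0, 2) +
          h (p₁ (2, 2)) + ρ h (p₂ (0, 0)))) ((Q (me 0 2 h)) (0, 2) -
        ((B (PiLp.single 2 (β := fun _ : Fin 3 × Fin 3 => H) (0, 2) (h ξ))) (0, 2) +
          h (q₁ (2, 2)) + ρ h (q₂ (0, 0))))).trans (add_le_add x1 x2)
    linarith
  have nS : ‖S1 (A + B)‖ ≤ L * γ := by
    refine (S1_norm _).trans ?_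
    have := (norm_add_le A B).trans (add_le_add hA hB)
    linarith
  have hLδ : 0 ≤ L * δ := by positivity
  have hLε : 0 ≤ L * ε := by positivity
  have ne1 : ‖e1‖ ≤ 3 / 2 * (L * δ) := by
    rw [he1, norm_smul, hhalf]
    have := (norm_add_le (p₂ (0, 0) + q₂ (0, 0)) ((Q (me 0 0 1)) (0, 0))).trans (add_le_add
      ((norm_add_le (p₂ (0, 0)) (q₂ (0, 0))).trans (add_le_add
        ((PiLp.norm_apply_le _ _).trans hp2) ((PiLp.norm_apply_le _ _).trans hq2)))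
      ((PiLp.norm_apply_le _ _).trans (hqb _ (me_ent 0 0 hM1 hn1))))
    linarith
  have ne2 : ‖e2‖ ≤ 3 / 2 * (L * δ) := by
    rw [he2, norm_smul, hhalf]
    have := (norm_add_le (p₁ (2, 2) + q₁ (2, 2)) ((P (me 2 2 1)) (2, 2))).trans (add_le_add
      ((norm_add_le (p₁ (2, 2)) (q₁ (2, 2))).trans (add_le_add
        ((PiLp.norm_apply_le _ _).trans hp1) ((PiLp.norm_apply_le _ _).trans hq1)))
      ((PiLp.norm_apply_le _ _).trans (hpb _ (me_ent 2 2 hM1 hn1))))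
    linarith
  have nbe : ∀ h ∈ M, ‖h‖ ≤ 1 → ‖be h‖ ≤ 2 * (L * δ) := by
    intro h hM hn
    have nr : ‖ρ h‖ ≤ 1 := by rw [hstd.norm h hM]; exact hn
    have z1 := (PiLp.norm_apply_le _ ((0 : Fin 3), (2 : Fin 3))).trans
      (hpb (me 0 2 h) (me_ent 0 2 hM hn))
    have z2 := (PiLp.norm_apply_le _ ((0 : Fin 3), (2 : Fin 3))).trans
      (hqb (me 0 2 h) (me_ent 0 2 hM hn))
    have z3 := le_of_le_one (ρ h) nr ((PiLp.norm_apply_le _ ((0 : Fin 3), (0 : Fin 3))).trans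
      (hqb _ (me_ent 0 0 hM1 hn1)))
    have z4 := le_of_le_one h hn ((PiLp.norm_apply_le _ ((2 : Fin 3), (2 : Fin 3))).trans
      (hpb _ (me_ent 2 2 hM1 hn1)))
    rw [hbe]
    show ‖(2 : ℂ)⁻¹ • ((P (me 0 2 h)) (0, 2) + ρ h ((Q (me 0 0 1)) (0, 0)) +
      h ((P (me 2 2 1)) (2, 2)) + (Q (me 0 2 h)) (0, 2))‖ ≤ _
    rw [norm_smul, hhalf]
    have := (norm_add_le ((P (me 0 2 h)) (0, 2) + ρ h ((Q (me 0 0 1)) (0, 0)) +
      h ((P (me 2 2 1)) (2, 2))) ((Q (me 0 2 h)) (0, 2))).trans (add_le_add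
        ((norm_add_le _ _).trans (add_le_add ((norm_add_le _ _).trans (add_le_add z1 z3)) z4)) z2)
    linarith
  have nS2 : ∀ a ∈ M, ‖a‖ ≤ 1 → ‖S1 (A + B) (a ξ)‖ ≤ 6 * (L * δ) := by
    intro a ha hn
    have nr : ‖ρ a‖ ≤ 1 := by rw [hstd.norm a ha]; exact hn
    have e : S1 (A + B) (a ξ) = be a - (be a - b1 a) - a e2 - ρ a e1 := by
      rw [hb1]
      module
    rw [e]
    have := (norm_sub_le (be a - (be a - b1 a) - a e2) (ρ a e1)).trans (add_le_add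
      ((norm_sub_le _ _).trans (add_le_add ((norm_sub_le _ _).trans
        (add_le_add (nbe a ha hn) (E3 a ha hn))) (le_of_le_one a hn ne2)))
      (le_of_le_one (ρ a) nr ne1))
    have h5 : L * ε ≤ L * δ := mul_le_mul_of_nonneg_left hεδ (by linarith)
    linarith
  refine ⟨-S1 (A + B), ?_, ?_, ?_⟩
  · rw [norm_neg]
    refine nS.trans ?_
    exact mul_le_mul_of_nonneg_right (by linarith) hγ
  · intro a ha
    rw [neg_apply, norm_neg]
    by_cases h0 : ‖a‖ = 0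
    · have : a = 0 := norm_eq_zero.mp h0
      rw [this]; simp
    · have hpos : 0 < ‖a‖ := lt_of_le_of_ne (norm_nonneg a) (Ne.symm h0)
      have hsc : ((‖a‖ : ℂ)⁻¹ • a) ∈ M := M.toStarSubalgebra.smul_mem ha _
      have hns : ‖((‖a‖ : ℂ)⁻¹ • a)‖ ≤ 1 := by
        rw [norm_smul, norm_inv, Complex.norm_real, norm_norm, inv_mul_cancel₀ h0]
      have h6 := nS2 _ hsc hns
      rw [smul_apply, map_smul, norm_smul, norm_inv, Complex.norm_real, norm_norm,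
        inv_mul_le_iff₀ hpos] at h6
      have h7 : 6 * L * δ * ‖a‖ ≤ (2 * K1 + 8 * K2 + 6 * L) * δ * ‖a‖ := by
        refine mul_le_mul_of_nonneg_right (mul_le_mul_of_nonneg_right (by linarith) hδ) hpos.le
      linarith
  · intro a ha b hb hau hbu
    have na := norm_unitary hau
    have nb' := norm_unitary hbu
    have nb : ‖ρ b‖ ≤ 1 := by rw [hstd.norm b hb]; exact nb'
    have hab : a * b ∈ M := mul_mem ha hb
    have nab : ‖a * b‖ ≤ 1 := norm_unitary (mul_mem hau hbu)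
    have y0 := E2 a ha b hb hau hbu
    have y1 := E3 _ hab nab
    have y2 := le_of_le_one a na (E3 b hb nb')
    have y3 := le_of_le_one (ρ b) nb (E3 a ha na)
    have y4 := le_of_le_one a na (le_of_le_one (ρ b) nb (E3 1 hM1 hn1))
    have hcom : ∀ v, ρ b (a v) = a (ρ b v) := fun v =>
      congrArg (fun T : H →L[ℂ] H => T v) (hstd.comm b hb a ha)
    have hmul : ∀ v, ρ (a * b) v = ρ b (ρ a v) := fun v =>
      congrArg (fun T : H →L[ℂ] H => T v) (hstd.mul a ha b hb)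
    have hcom2 : ∀ v, ρ b (ρ a v) = ρ b (ρ a v) := fun v => rfl
    have e : c a b + dc ξ ρ (-S1 (A + B)) a b =
        (c a b - (be (a * b) - a (be b) - ρ b (be a) + a (ρ b (be 1)))) +
        (be (a * b) - b1 (a * b)) - a (be b - b1 b) - ρ b (be a - b1 a) +
        a (ρ b (be 1 - b1 1)) := by
      have hdc : dc ξ ρ (-S1 (A + B)) a b = -(S1 (A + B) (a (b ξ))) + a (S1 (A + B) (b ξ)) +
          ρ b (S1 (A + B) (a ξ)) - a (ρ b (S1 (A + B) ξ)) := by
        show ((-S1 (A + B)) (a (b ξ)) - a ((-S1 (A + B)) (b ξ))) -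
          ρ b ((-S1 (A + B)) (a ξ) - a ((-S1 (A + B)) ξ)) = _
        simp only [neg_apply, map_neg, map_sub, hcom]
        module
      have hab' : ∀ v, (a * b) v = a (b v) := fun v => rfl
      rw [hb1, hdc]
      simp only [map_sub, map_add, hmul, hρ1, one_apply_eq_self, hcom, hab']
      module
    rw [e]
    have := (norm_add_le ((c a b - (be (a * b) - a (be b) - ρ b (be a) + a (ρ b (be 1)))) +
        (be (a * b) - b1 (a * b)) - a (be b - b1 b) - ρ b (be a - b1 a))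
        (a (ρ b (be 1 - b1 1)))).trans (add_le_add ((norm_sub_le _ _).trans (add_le_add
        ((norm_sub_le _ _).trans (add_le_add ((norm_add_le _ _).trans (add_le_add y0 y1)) y2))
        y3)) y4)
    have h8 : 0 ≤ L * ε := hLε
    nlinarith


end Pool.Agent.W357.KKS.UNI
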